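import Pool.Agent.H57.RED.Stmts

/-!
Row CNL of the reduction for MP_ffb5eb (helper52): the number of crossing four-sets is at most
the number of crossings.
-/

set_option autoImplicit false

namespace Pool.MCR.Red

open Pool.MCR

theorem cnl_thm : CNL_S := by
  classical
  intro V _ G D
  have hfin : ∀ S : Set (Sym2 (Sym2 V)), S.Finite := fun S => Set.toFinite S
  obtain ⟨g, hg⟩ : ∃ g : Sym2 (Sym2 V) → Finset V, ∀ q v, v ∈ g q ↔ ∃ e ∈ q, v ∈ e :=
    ⟨fun q => Finset.univ.filter (fun v => ∃ e ∈ q, v ∈ e), fun q v => by simp⟩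
  have hsub : {Q : Finset V | IsX D Q} ⊆ g '' {q : Sym2 (Sym2 V) | ∃ e ∈ G.edgeSet,
      ∃ f ∈ G.edgeSet, e ≠ f ∧ q = s(e, f) ∧ D.Crosses e f} := by
    rintro Q ⟨a, b, c, d, -, hac, had, -, -, -, hQ, h1, h2, hX⟩
    refine ⟨s(s(a, b), s(c, d)), ⟨s(a, b), h1, s(c, d), h2, ?_, rfl, hX⟩, ?_⟩
    · intro h
      rw [Sym2.eq_iff] at h
      rcases h with ⟨h, -⟩ | ⟨h, -⟩
      · exact hac h
      · exact had h
    · ext v
      rw [hg, hQ]
      simp only [Sym2.mem_iff]
      constructor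
      · rintro ⟨e, rfl | rfl, h⟩
        · rcases Sym2.mem_iff.mp h with h | h
          · exact Or.inl h
          · exact Or.inr (Or.inl h)
        · rcases Sym2.mem_iff.mp h with h | h
          · exact Or.inr (Or.inr (Or.inl h))
          · exact Or.inr (Or.inr (Or.inr h))
      · rintro (h | h | h | h)
        · exact ⟨s(a, b), Or.inl rfl, Sym2.mem_iff.mpr (Or.inl h)⟩
        · exact ⟨s(a, b), Or.inl rfl, Sym2.mem_iff.mpr (Or.inr h)⟩
        · exact ⟨s(c, d), Or.inr rfl, Sym2.mem_iff.mpr (Or.inl h)⟩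
        · exact ⟨s(c, d), Or.inr rfl, Sym2.mem_iff.mpr (Or.inr h)⟩
  exact (Set.ncard_le_ncard hsub (hfin _ |>.image g)).trans (Set.ncard_image_le (hfin _))

end Pool.MCR.Red
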